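import Pool.Agent.H29.LP.BR
import Pool.Agent.H39.SLP.UN2

/-!
# The step in one context, order one

Section 5 of `K_SLOPE_h7.md` for one value of the context and active order one. The data of a line
at the base time are `y, om, c`; the tilt of the own sheet relative to the background at the time
`τ` is `Φ τ`. Both ends (`A` = height at the base time, `X τ` = own height at the time `τ`, both
nearly independent of the data), non full rows and positions with almost full entropy give: the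
tilt agrees at the typical times with a polynomial of degree `< n`, with the error
`C * (|τ| ^ n + η)`.
-/

set_option autoImplicit false

namespace Pool.SLP

open Finset Real Polynomial
open Pool.Agent.H49.Ent Pool.Agent.H32.Dense Pool.STK Pool.KVA Pool.KX Pool.KAL Pool.KAF Pool.LP

/-- Exponents of the monomials of degree at most one. -/
def ex1 {k : ℕ} : Option (Fin k) → Fin k → ℕ := fun o l => o.elim 0 (fun i => if i = l then 1 else 0)

lemma ex1_inj {k : ℕ} : Function.Injective (ex1 (k := k)) := by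
  intro a b h
  cases a with
  | none =>
    cases b with
    | none => rfl
    | some j =>
      have := congrFun h j
      simp [ex1] at this
  | some i =>
    cases b with
    | none =>
      have := congrFun h i
      simp [ex1] at this
    | some j =>
      have := congrFun h i
      simp only [ex1, Option.elim, if_true] at this
      by_cases hij : j = i
      · rw [hij]
      · rw [if_neg hij] at this
        omega

lemma ex1_sum {k : ℕ} (o : Option (Fin k)) : ∑ l, ex1 o l ≤ 1 := by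
  cases o with
  | none => simp [ex1]
  | some i => simp [ex1]

lemma mon_ex1 {k : ℕ} (o : Option (Fin k)) (Y : Fin k → ℝ) :
    mon (ex1 o) Y = o.elim 1 (fun i => Y i) := by
  unfold mon
  cases o with
  | none => simp [ex1]
  | some i =>
    simp only [ex1, Option.elim]
    rw [Finset.prod_eq_single i]
    · simp
    · intro b _ hb
      rw [if_neg (Ne.symm hb), pow_zero]
    · intro h
      exact absurd (Finset.mem_univ i) h

/-- The row of the linear system given by one line. -/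
noncomputable def rowM {k d : ℕ} (w : Ln (Fin k) Unit d) : Option (Fin k) → ℝ[X] :=
  fun o => o.elim 1 (fun i => Polynomial.C (w.y i) + Polynomial.C (w.om i) * Polynomial.X)

/-- The right hand side given by one line. -/
noncomputable def rhsP {k d : ℕ} (w : Ln (Fin k) Unit d) : ℝ[X] :=
  ∑ j : Fin d, Polynomial.C (w.c () j) * Polynomial.X ^ ((j : ℕ) + 1)

lemma CB_rowM {k d : ℕ} (w : Ln (Fin k) Unit d) {B : ℝ} (hB : 1 ≤ B) (hy : ∀ i, |w.y i| ≤ B)
    (ho : ∀ i, |w.om i| ≤ B) (o : Option (Fin k)) : CB (d + 1) B (rowM w o) := by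
  cases o with
  | none =>
    refine ⟨?_, fun i => ?_⟩
    · simp [rowM]
    · simp only [rowM, Option.elim]
      rw [Polynomial.coeff_one]
      split_ifs
      · rw [abs_one]; exact hB
      · rw [abs_zero]; linarith
  | some l =>
    refine ⟨?_, fun i => ?_⟩
    · simp only [rowM, Option.elim]
      refine (Polynomial.natDegree_add_le _ _).trans (max_le ?_ ?_)
      · rw [Polynomial.natDegree_C]; omega
      · refine (Polynomial.natDegree_C_mul_le _ _).trans ?_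
        rw [Polynomial.natDegree_X]; omega
    · simp only [rowM, Option.elim]
      rw [Polynomial.coeff_add, Polynomial.coeff_C, Polynomial.coeff_C_mul, Polynomial.coeff_X]
      rcases Nat.eq_zero_or_pos i with h | h
      · subst h
        simp only [if_true]
        rw [if_neg (by omega), mul_zero, add_zero]
        exact hy l
      · rw [if_neg (by omega), zero_add]
        by_cases h1 : 1 = i
        · rw [if_pos h1, mul_one]; exact ho l
        · rw [if_neg h1, mul_zero, abs_zero]; linarith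

lemma CB_rhsP {k d : ℕ} (w : Ln (Fin k) Unit d) {B : ℝ} (hB : 0 ≤ B)
    (hc : ∀ j, |w.c () j| ≤ B) : CB (d + 1) B (rhsP w) := by
  refine ⟨?_, fun i => ?_⟩
  · refine Polynomial.natDegree_sum_le_of_forall_le _ _ fun j _ => ?_
    refine (Polynomial.natDegree_C_mul_X_pow_le _ _).trans ?_
    have := j.2
    omega
  · unfold rhsP
    rw [Polynomial.finsetSum_coeff]
    simp only [Polynomial.coeff_C_mul, Polynomial.coeff_X_pow]
    by_cases h : ∃ j : Fin d, i = (j : ℕ) + 1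
    · obtain ⟨j, hj⟩ := h
      rw [Finset.sum_eq_single j]
      · rw [if_pos hj, mul_one]; exact hc j
      · intro b _ hb
        rw [if_neg, mul_zero]
        intro h'
        apply hb
        ext
        omega
      · intro h'
        exact absurd (Finset.mem_univ j) h'
    · rw [Finset.sum_eq_zero, abs_zero]
      · exact hB
      · intro j _
        rw [if_neg, mul_zero]
        intro h'
        exact h ⟨j, h'⟩

lemma eval_rowM {k d : ℕ} (w : Ln (Fin k) Unit d) (t : ℝ) (o : Option (Fin k)) :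
    (rowM w o).eval t = o.elim 1 (fun i => w.y i + t * w.om i) := by
  cases o with
  | none => simp [rowM]
  | some i =>
    simp only [rowM, Option.elim, Polynomial.eval_add, Polynomial.eval_mul, Polynomial.eval_C,
      Polynomial.eval_X]
    ring

lemma coeff_rowM {k d : ℕ} (w : Ln (Fin k) Unit d) (o : Option (Fin k)) :
    (rowM w o).coeff 0 = mon (ex1 o) w.y := by
  rw [mon_ex1, Polynomial.coeff_zero_eq_eval_zero, eval_rowM]
  cases o with
  | none => rfl
  | some i => simp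

lemma eval_rhsP {k d : ℕ} (w : Ln (Fin k) Unit d) (t : ℝ) :
    (rhsP w).eval t = ∑ j : Fin d, w.c () j * t ^ ((j : ℕ) + 1) := by
  unfold rhsP
  simp only [Polynomial.eval_finsetSum, Polynomial.eval_mul, Polynomial.eval_C,
    Polynomial.eval_pow, Polynomial.eval_X]

/-- **The algebraic part.** Lines whose positions are unisolvent and whose displacements agree up
to `η`. -/
theorem ctx_alg (k d n : ℕ) (R₀ A : ℝ) (hR : 1 ≤ R₀) (hA : 0 ≤ A) : ∃ C δ : ℝ, 0 ≤ C ∧ 0 < δ ∧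
    δ ≤ 1 ∧ ∀ (z : Option (Fin k) → Ln (Fin k) Unit d) (N : Option (Fin k) → Option (Fin k) → ℝ),
      (∀ o i, |(z o).y i| ≤ R₀) → (∀ o i, |(z o).om i| ≤ R₀) → (∀ o j, |(z o).c () j| ≤ R₀) →
      (∀ i j, |N i j| ≤ A) →
      (∀ v : Option (Fin k) → ℝ, ∀ i, ∑ j, mon (ex1 j) (z i).y * ∑ l, N j l * v l = v i) →
      (∀ v : Option (Fin k) → ℝ, ∀ i, ∑ j, N i j * ∑ l, mon (ex1 l) (z j).y * v l = v i) →
      ∃ r : Fin k → ℕ → ℝ, (∀ i m, |r i m| ≤ C) ∧
        ∀ (τ : ℝ) (Φ : Unit → Fin k → ℝ) (η : ℝ), |τ| ≤ δ →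
          (∀ o o', |(z o).h () Φ τ - (z o').h () Φ τ| ≤ η) →
          ∀ i, |Φ () i - ∑ m ∈ range n, r i m * τ ^ m| ≤ C * (|τ| ^ n + η) := by
  obtain ⟨C, δ, hC, hδ0, hδ1, key⟩ := tay (ι := Option (Fin k)) (d + 1) R₀ R₀ A (by linarith)
    (by linarith) hA n
  refine ⟨C, δ, hC, hδ0, hδ1, fun z N hy ho hc hN hinv1 hinv2 => ?_⟩
  obtain ⟨r, hr, hmain⟩ := key (fun o => rowM (z o)) (fun o => rhsP (z o)) N
    (fun o o' => CB_rowM (z o) hR (hy o) (ho o) o') (fun o => CB_rhsP (z o) (by linarith) (hc o))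
    hN (fun v i => by simpa only [coeff_rowM] using hinv1 v i)
    (fun v i => by simpa only [coeff_rowM] using hinv2 v i)
  refine ⟨fun i => r (some i), fun i m => hr _ _, fun τ Φ η hτ hh i => ?_⟩
  refine hmain τ hτ (fun o => o.elim ((z none).h () Φ τ) (fun i => Φ () i)) η (fun o => ?_)
    (some i)
  have h1 : ∑ j : Option (Fin k), (rowM (z o) j).eval τ *
      (j.elim ((z none).h () Φ τ) (fun i => Φ () i)) - (rhsP (z o)).eval τ =
      (z none).h () Φ τ - (z o).h () Φ τ := by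
    rw [Fintype.sum_option, eval_rhsP]
    simp only [eval_rowM, Option.elim]
    unfold Ln.h
    have h2 : ∑ i, Φ () i * ((z o).y i + τ * (z o).om i) =
        ∑ i, ((z o).y i + τ * (z o).om i) * Φ () i :=
      Finset.sum_congr rfl fun i _ => mul_comm _ _
    rw [h2]
    ring
  rw [h1]
  exact hh none o

/-- **The step in one context.** -/
theorem ctx_step (k d n : ℕ) (R₀ : ℝ) (hR : 1 ≤ R₀) : ∃ (c : ℝ) (K₀ : ℕ), 0 < c ∧
    ∀ Ky : ℕ, K₀ ≤ Ky → ∃ C δ : ℝ, 0 ≤ C ∧ 0 < δ ∧ δ ≤ 1 ∧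
    ∀ (Ω : Type) [Fintype Ω] (p : Ω → ℝ) (A : Ω → ℤ) (X : ℝ → Ω → ℤ)
      (o : Ω → Ln (Fin k) Unit d) (Bd : ℝ → Set Ω) (v u u₂ N : ℕ) (R e₁ e₂ ρ e : ℝ)
      (Φ : ℝ → Unit → Fin k → ℝ) (S : Set ℝ) (g : ℝ → Ln (Fin k) Unit d → ℤ)
      (y : Ω → Fin k → Fin (2 ^ Ky)) (off : Fin k → ℝ),
      IsLaw p → u ≤ u₂ → 0 < N → 0 ≤ R → 0 < ρ →
      (2 * (2 * Real.sqrt e₁ + e₂)) / ρ + 2 * (R / N) ≤ e → 0 ≤ e →
      9 * 4 ^ (2 * v + u) * e ≤ 1 →
      (∀ τ ∈ S, ∀ w, ρ ≤ law p o w → |(g τ w : ℝ) - 2 ^ (2 * v + u₂) * w.h () (Φ τ) τ| ≤ 1) →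
      (∀ τ ∈ S, ∀ ω, ω ∉ Bd τ → |((X τ ω - A ω - g τ (o ω) : ℤ) : ℝ)| ≤ R) →
      (∀ τ ∈ S, Pr p (Bd τ) ≤ e₂) →
      H p A + H p o - H p (fun ω => (A ω, o ω)) ≤ e₁ →
      (∀ τ ∈ S, H p (X τ) + H p o - H p (fun ω => (X τ ω, o ω)) ≤ e₁) →
      CH (smp 1 N p)
        (fun w => (A w.1 + ((w.2 0 : ℕ) : ℤ)) / ((2 ^ (v + u₂) : ℕ) : ℤ))
        (fun w => ((A w.1 + ((w.2 0 : ℕ) : ℤ)) / ((2 ^ (2 * v + u₂) : ℕ) : ℤ), ())) <
          (v : ℝ) * Real.log 2 - 5 →
      (∀ τ ∈ S, ∀ w w', ρ ≤ law p o w → ρ ≤ law p o w' →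
        2 ^ (2 * v) * |(w.sub w').h () (Φ τ) τ| ≤ 2 ^ v - 2) →
      (∀ l, |off l| ≤ R₀) →
      (∀ ω, 0 < p ω → ∀ l, |(o ω).y l - (off l + ((y ω l : ℕ) : ℝ) / 2 ^ Ky)| ≤ R₀ / 2 ^ Ky) →
      (∀ ω, 0 < p ω → ∀ l, |(o ω).om l| ≤ R₀) → (∀ ω, 0 < p ω → ∀ j, |(o ω).c () j| ≤ R₀) →
      k * (Ky * Real.log 2) - H p y ≤ c * Ky →
      1 / 2 ≤ Pr p {ω | ρ ≤ law p o (o ω)} →
      ∃ r : Fin k → ℕ → ℝ, (∀ i m, |r i m| ≤ C) ∧ ∀ τ ∈ S, |τ| ≤ δ → ∀ i,
        |Φ τ () i - ∑ m ∈ range n, r i m * τ ^ m| ≤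
          C * (|τ| ^ n + (1 / 2 ^ u + 2 / 2 ^ u₂) / 2 ^ (2 * v)) := by
  obtain ⟨c, C1, K₀, hc, hC1, hun⟩ := Pool.Agent.H39.SLP.un2 k 1 R₀ hR
  refine ⟨c, K₀, hc, fun Ky hKy => ?_⟩
  obtain ⟨C, δ, hC, hδ0, hδ1, halg⟩ := ctx_alg k d n (3 * R₀) (Real.exp (C1 * Ky)) (by linarith)
    (Real.exp_pos _).le
  refine ⟨C, δ, hC, hδ0, hδ1, ?_⟩
  intro Ω _ p A X o Bd v u u₂ N R e₁ e₂ ρ e Φ S g y off hp hu hN hR0 hρ he he0 he2 hg hX hBd hA
    hXo hent hap hoff hy hom hcc hfull hG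
  have hbr := br_thm hp A X o Bd v u u₂ N R e₁ e₂ ρ e hu hN hR0 hρ he he0 he2 Φ S g hg hX hBd hA
    hXo hent hap
  obtain ⟨z, Nv, hz, hNv, hi1, hi2⟩ := hun Ky hKy Ω (Option (Fin k)) p y (fun ω => (o ω).y) off
    {ω | ρ ≤ law p o (o ω)} ex1 hp hoff hy hfull hG ex1_inj ex1_sum
  have hK1 : (1 : ℝ) ≤ 2 ^ Ky := one_le_pow₀ (by norm_num)
  have hyb : ∀ j i, |(o (z j)).y i| ≤ 3 * R₀ := by
    intro j i
    have h1 := hy (z j) (hz j).2 i
    have h2 : R₀ / 2 ^ Ky ≤ R₀ := div_le_self (by linarith) hK1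
    have h3 : ((y (z j) i : ℕ) : ℝ) / 2 ^ Ky ≤ 1 := by
      rw [div_le_one (by positivity)]
      have := (y (z j) i).2
      exact_mod_cast this.le
    have h4 : 0 ≤ ((y (z j) i : ℕ) : ℝ) / 2 ^ Ky := by positivity
    have h5 := hoff i
    rw [abs_le] at h1 h5 ⊢
    constructor <;> linarith [h1.1, h1.2, h5.1, h5.2]
  obtain ⟨r, hr, hmain⟩ := halg (fun j => o (z j)) Nv hyb
    (fun j i => (hom (z j) (hz j).2 i).trans (by linarith))
    (fun j i => (hcc (z j) (hz j).2 i).trans (by linarith)) hNv hi1 hi2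
  refine ⟨r, hr, fun τ hτS hτ i => hmain τ (Φ τ) _ hτ (fun j j' => ?_) i⟩
  have h1 := hbr τ hτS (o (z j)) (o (z j')) (hz j).1 (hz j').1
  rw [Ln.h_sub] at h1
  rw [le_div_iff₀ (by positivity), mul_comm]
  exact h1

end Pool.SLP
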